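import Mathlib

set_option autoImplicit false

open Set Filter Topology Function

namespace Pool.Agent.H.MP_35204b_gt

lemma t2 {X Y : Type} [t : TopologicalSpace Y] [T2Space Y] (f : X → Y) (hf : Injective f) :
    @T2Space X (t.induced f) :=
  letI := t.induced f
  IsEmbedding.t2Space (f := f) ⟨⟨rfl⟩, hf⟩

theorem core {A K B Q : Type} [CommGroup A] [TopologicalSpace A] [Group K] [TopologicalSpace K]
    [IsTopologicalGroup A] [IsTopologicalGroup K] [CompactSpace K]
    [CommGroup B] [t : TopologicalSpace B] [IsTopologicalGroup B] [T2Space B]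
    [Group Q] [TopologicalSpace Q] [IsTopologicalGroup Q] [T2Space Q]
    (hB : ∀ s : TopologicalSpace B, @IsTopologicalGroup B s _ → @T2Space B s → t ≤ s → s = t)
    (H : Subgroup (A × K)) (hH : IsClosed (H : Set (A × K))) (q : H →* Q) (hq : Continuous q)
    (hq' : Surjective q) (r : A →* B) (hr : IsOpenMap r) (hr' : Surjective r)
    (hk : ∀ a, r a = 1 ↔ ∃ n : H, q n = 1 ∧ n.1.1 = a) :
    ∀ O ∈ 𝓝 (1 : H), q '' O ∈ 𝓝 (1 : Q) := by
  let π : H →* A := (MonoidHom.fst A K).comp H.subtype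
  let ψ : Q →* B := q.liftOfSurjective hq' ⟨r.comp π, fun n hn => (hk _).2 ⟨n, hn, rfl⟩⟩
  have hψ : ∀ h, ψ (q h) = r h.1.1 := fun h => q.liftOfRightInverse_comp_apply _ _ _ h
  have L : ∀ (E : Filter Q) [E.NeBot] (a : A), Tendsto ψ E (𝓝 (r a)) →
      ∃ h : H, h.1.1 = a ∧ ClusterPt h (comap q E) := by
    intro E _ a ha
    have : (comap q E ⊓ comap π (𝓝 a)).NeBot := by
      refine ((E.basis_sets.comap q).inf_basis_neBot_iff ((𝓝 a).basis_sets.comap π)).2
        fun S hS U hU => ?_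
      obtain ⟨x, hx, u, hu, he⟩ := E.nonempty_of_mem (inter_mem hS (ha (hr.image_mem_nhds hU)))
      obtain ⟨h, rfl⟩ := hq' x
      obtain ⟨n, h1, h2⟩ := (hk (h.1.1⁻¹ * u)).1 (by rw [map_mul, map_inv, he, hψ, inv_mul_cancel])
      exact ⟨h * n, by simpa [h1] using hx, by simpa [π, h2] using hu⟩
    let u := Ultrafilter.of (comap q E ⊓ comap π (𝓝 a))
    have hu : (u : Filter H) ≤ comap q E ⊓ comap π (𝓝 a) := Ultrafilter.of_le _
    obtain ⟨k, -, hk⟩ := isCompact_univ.ultrafilter_le_nhds (u.map fun h => h.1.2) (by simp)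
    have h1 : Tendsto Subtype.val (u : Filter H) (𝓝 (a, k)) :=
      (tendsto_iff_comap.2 (hu.trans inf_le_right)).prodMk_nhds hk
    exact ⟨⟨(a, k), hH.mem_of_tendsto h1 (Eventually.of_forall fun h => h.2)⟩, rfl,
      clusterPt_iff_ultrafilter.2 ⟨u, hu.trans inf_le_left, tendsto_subtype_rng.2 h1⟩⟩
  have L' : ∀ (E : Filter Q) (h : H) (x : Q), ClusterPt h (comap q E) → E ≤ 𝓝 x → q h = x :=
    fun E h x h1 h2 => eq_of_nhds_neBot ((h1.map hq.continuousAt tendsto_comap).mono h2)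
  let m : Q × B →* B := ψ.coprod (MonoidHom.id B)
  have hm : IsClosed (m.ker : Set (Q × B)) := by
    refine isClosed_iff_clusterPt.2 fun p hp => ?_
    obtain ⟨a, ha⟩ := hr' p.2⁻¹
    have : (𝓝 p ⊓ 𝓟 (m.ker : Set (Q × B))).NeBot := hp
    obtain ⟨h, h1, h2⟩ := L (map Prod.fst (𝓝 p ⊓ 𝓟 (m.ker : Set (Q × B)))) a (by
      rw [ha, tendsto_map'_iff]
      refine ((continuous_snd.inv.tendsto p).mono_left inf_le_left).congr' ?_
      filter_upwards [mem_inf_of_right (mem_principal_self _)] with y hy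
      exact (eq_inv_of_mul_eq_one_left hy).symm)
    have := L' _ _ p.1 h2 ((continuous_fst.tendsto p).mono_left inf_le_left)
    show ψ p.1 * p.2 = 1
    rw [← this, hψ, h1, ha, inv_mul_cancel]
  let j : B →* (Q × B) ⧸ m.ker := (QuotientGroup.mk' _).comp (MonoidHom.inr Q B)
  have hj : Continuous j := continuous_quotient_mk'.comp (continuous_const.prodMk continuous_id)
  have hj' : Injective j := (injective_iff_map_eq_one j).2 fun b hb => by
    simpa [m] using (QuotientGroup.eq_one_iff _).1 hb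
  have hi : IsInducing j := ⟨(hB _ (topologicalGroup_induced j) (t2 j hj')
    (continuous_iff_le_induced.1 hj)).symm⟩
  have hc : Continuous ψ := hi.continuous_iff.2 (by
    have : j ∘ ψ = fun x => QuotientGroup.mk ((x, 1) : Q × B) := funext fun x =>
      QuotientGroup.eq.2 (by simp [m])
    rw [this]
    exact continuous_quotient_mk'.comp (continuous_id.prodMk continuous_const))
  intro O hO
  by_contra hn
  have : (𝓝 (1 : Q) ⊓ 𝓟 (q '' O)ᶜ).NeBot := notMem_iff_inf_principal_compl.1 hn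
  obtain ⟨h, -, h2⟩ := L (𝓝 (1 : Q) ⊓ 𝓟 (q '' O)ᶜ) 1
    (by simpa using (hc.tendsto 1).mono_left inf_le_left)
  have h3 := L' _ _ 1 h2 inf_le_left
  have h4 : (fun y => h⁻¹ * y) ⁻¹' O ∈ 𝓝 h :=
    (continuous_const.mul continuous_id).continuousAt.preimage_mem_nhds (by simpa using hO)
  obtain ⟨y, h5, h6⟩ := h2.neBot.nonempty_of_mem (inter_mem_inf h4
    (preimage_mem_comap (mem_inf_of_right (mem_principal_self _))))
  exact h6 ⟨_, h5, by simp [h3]⟩

theorem fin {H Q : Type} [Group H] [TopologicalSpace H] [Group Q] (q : H →* Q)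
    (s t : TopologicalSpace Q) (hs : @IsTopologicalGroup Q s _) (ht : @IsTopologicalGroup Q t _)
    (hq : Continuous[_, t] q) (h : ∀ O ∈ 𝓝 (1 : H), q '' O ∈ @nhds Q s 1) : s ≤ t := by
  refine continuous_id_iff_le.1 (@continuous_of_continuousAt_one Q s _ hs Q _ _ t _ _ _
    (MonoidHom.id Q) fun U hU => ?_)
  exact mem_of_superset (h _ (hq.continuousAt.preimage_mem_nhds (by simpa using hU)))
    (image_preimage_subset _ _)

end Pool.Agent.H.MP_35204b_gt
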